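import Pool.Agent.H98.RFZ.Targets2

/-!
# Row AA: scaling up, summary
-/

set_option autoImplicit false

open MeasureTheory ProbabilityTheory Filter Topology
open Pool.Agent.H98.RFC Pool.Agent.H98.RFZ

namespace Pool.Agent.H94.RFZ

theorem pf_AA (h2 : B_A2) (h3 : B_A3) : B_A := by
  intro R J hJ ε N α β θ hα hαβ hN hθ hθ1 v hv hp
  have hρ : 1 ≤ β / α := by rwa [one_le_div hα]
  have hN0 : ∀ x, 0 ≤ N x := fun x =>
    le_trans (mul_nonneg hα.le (Real.sqrt_nonneg _)) (hN.2.2 x).1
  have hfin : ∀ s : Set (Site → ℝ), gam s ≠ ⊤ := by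
    intro s
    have : IsProbabilityMeasure gam := by unfold gam; infer_instance
    exact measure_ne_top _ _
  refine h3 (β / α) θ hρ hθ hθ1
    (fun c v => pB R J ε (fun x => c * N x) v) (20 * R + 20) (by omega)
    (fun c v => ENNReal.toReal_nonneg) ?_ ?_ v hv ?_
  · intro c c' v hc hcc'
    refine ENNReal.toReal_mono (hfin _) (measure_mono ?_)
    rintro η ⟨k, x, h1, h4, h5, h6, h7⟩
    refine ⟨k, x, h1, h4, h5, h6, lt_of_lt_of_le h7 ?_⟩
    exact mul_le_mul_of_nonneg_right hcc' (hN0 _)
  · intro c c' v w hv hw hc hc' hle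
    have hNc : IsN (fun x => c * N x) (c * α) (c * β) := by
      refine ⟨fun x y => ?_, fun x => ?_, fun x => ⟨?_, ?_⟩⟩
      · have := mul_le_mul_of_nonneg_left (hN.1 x y) hc.le
        change c * N (x + y) ≤ c * N x + c * N y
        linarith
      · change c * N (-x) = c * N x
        rw [hN.2.1]
      · change c * α * nrm x ≤ c * N x
        rw [mul_assoc]
        exact mul_le_mul_of_nonneg_left (hN.2.2 x).1 hc.le
      · change c * N x ≤ c * β * nrm x
        rw [mul_assoc]
        exact mul_le_mul_of_nonneg_left (hN.2.2 x).2 hc.le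
    have hr : c * β / (c * α) = β / α := mul_div_mul_left β α hc.ne'
    have h4 := h2 R J hJ ε (fun x => c * N x) (c * α) (c * β) (c' / c) (mul_pos hc hα)
      (mul_le_mul_of_nonneg_left hαβ hc.le) hNc v w hv hw (div_nonneg hc' hc.le) (by
        rw [hr, div_le_iff₀ hc]
        linarith)
    have h5 : (fun x => c' / c * (c * N x)) = fun x => c' * N x := by
      funext x
      field_simp
    rw [h5] at h4
    exact h4
  · have h4 : (fun x => (1 : ℝ) * N x) = N := by
      funext x
      rw [one_mul]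
    change pB R J ε (fun x => (1 : ℝ) * N x) v ≤ _
    rw [h4]
    exact hp

end Pool.Agent.H94.RFZ
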