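import Pool.Agent.H98.RFZ.Targets

/-!
# Row AREA: rectangles contain the right number of sites
-/

set_option autoImplicit false

open MeasureTheory Filter Topology
open Pool.Agent.H98.RFC Pool.Agent.H98.RFZ

namespace Pool.Agent.H94.RFZ

/-- the matrix of `y ↦ (det (p, y), p · y)` -/
def Mp (p : Site) : Matrix (Fin 2) (Fin 2) ℝ := !![-(p.2 : ℝ), (p.1 : ℝ); (p.1 : ℝ), (p.2 : ℝ)]

/-- the real rectangle -/
def RR (p : Site) (A B : ℝ) : Set (Fin 2 → ℝ) :=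
  (Matrix.toLin' (Mp p)) ⁻¹' Set.Icc (fun i => -(![A, B] i * nrm p)) (fun i => ![A, B] i * nrm p)

theorem mem_RR (p : Site) (A B : ℝ) (y : Fin 2 → ℝ) : y ∈ RR p A B ↔
    |(p.1 : ℝ) * y 1 - p.2 * y 0| ≤ A * nrm p ∧ |(p.1 : ℝ) * y 0 + p.2 * y 1| ≤ B * nrm p := by
  unfold RR
  rw [Set.mem_preimage, Set.mem_Icc, Pi.le_def, Pi.le_def, Fin.forall_fin_two,
    Fin.forall_fin_two]
  have h0 : (Matrix.toLin' (Mp p)) y 0 = (p.1 : ℝ) * y 1 - p.2 * y 0 := by
    simp [Mp, Matrix.toLin'_apply, Matrix.mulVec, dotProduct, Fin.sum_univ_two]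
    ring
  have h1 : (Matrix.toLin' (Mp p)) y 1 = (p.1 : ℝ) * y 0 + p.2 * y 1 := by
    simp [Mp, Matrix.toLin'_apply, Matrix.mulVec, dotProduct, Fin.sum_univ_two]
  rw [h0, h1]
  simp only [Matrix.cons_val_zero, Matrix.cons_val_one]
  rw [abs_le, abs_le]
  tauto

theorem nrm_sq (p : Site) : nrm p ^ 2 = (p.1 : ℝ) ^ 2 + (p.2 : ℝ) ^ 2 := by
  unfold nrm nsq
  rw [Real.sq_sqrt]
  · push_cast
    ring
  · push_cast
    positivity

theorem nrm_pos {p : Site} (hp : p ≠ 0) : 0 < nrm p := by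
  have h1 := nrm_sq p
  have h2 : 0 < (p.1 : ℝ) ^ 2 + (p.2 : ℝ) ^ 2 := by
    by_cases h : p.1 = 0
    · have h3 : p.2 ≠ 0 := fun h4 => hp (Prod.ext h h4)
      have h4 : (p.2 : ℝ) ≠ 0 := by exact_mod_cast h3
      positivity
    · have h4 : (p.1 : ℝ) ≠ 0 := by exact_mod_cast h
      positivity
  have h3 : 0 ≤ nrm p := Real.sqrt_nonneg _
  rcases h3.eq_or_lt with h4 | h4
  · rw [← h4] at h1
    norm_num at h1
    linarith
  · exact h4

theorem vol_RR {p : Site} (hp : p ≠ 0) {A B : ℝ} (hA : 0 ≤ A) :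
    volume (RR p A B) = ENNReal.ofReal (4 * A * B) := by
  have hn := nrm_pos hp
  have hdet : LinearMap.det (Matrix.toLin' (Mp p)) = -(nrm p ^ 2) := by
    rw [LinearMap.det_toLin', Matrix.det_fin_two, nrm_sq]
    simp [Mp]
    ring
  have hne : LinearMap.det (Matrix.toLin' (Mp p)) ≠ 0 := by
    rw [hdet]
    exact neg_ne_zero.2 (pow_ne_zero 2 hn.ne')
  unfold RR
  rw [Measure.addHaar_preimage_linearMap volume hne, Real.volume_Icc_pi, Fin.prod_univ_two,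
    hdet]
  simp only [Matrix.cons_val_zero, Matrix.cons_val_one]
  rw [← ENNReal.ofReal_mul (by nlinarith [mul_nonneg hA hn.le]),
    ← ENNReal.ofReal_mul (abs_nonneg _)]
  congr 1
  rw [inv_neg, abs_neg, abs_of_pos (inv_pos.2 (pow_pos hn 2))]
  field_simp
  ring

/-- closed unit square -/
def sqc (x : Site) : Set (Fin 2 → ℝ) :=
  Set.Icc (fun i => ![(x.1 : ℝ), (x.2 : ℝ)] i - 1 / 2) (fun i => ![(x.1 : ℝ), (x.2 : ℝ)] i + 1 / 2)

/-- half open unit square -/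
def sqo (x : Site) : Set (Fin 2 → ℝ) :=
  Set.pi Set.univ fun i => Set.Ico (![(x.1 : ℝ), (x.2 : ℝ)] i - 1 / 2)
    (![(x.1 : ℝ), (x.2 : ℝ)] i + 1 / 2)

theorem vol_sqc (x : Site) : volume (sqc x) = 1 := by
  unfold sqc
  rw [Real.volume_Icc_pi, Fin.prod_univ_two]
  norm_num

theorem vol_sqo (x : Site) : volume (sqo x) = 1 := by
  unfold sqo
  rw [Real.volume_pi_Ico, Fin.prod_univ_two]
  norm_num

/-- the change of the two coordinates inside a unit square -/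
theorem change {p x : Site} {y : Fin 2 → ℝ} (h0 : |y 0 - x.1| ≤ 1 / 2)
    (h1 : |y 1 - x.2| ≤ 1 / 2) :
    |((p.1 : ℝ) * y 1 - p.2 * y 0) - (fdet p x : ℝ)| ≤ 3 / 4 * nrm p ∧
    |((p.1 : ℝ) * y 0 + p.2 * y 1) - (gdot p x : ℝ)| ≤ 3 / 4 * nrm p := by
  have hb : 1 / 2 * (|(p.1 : ℝ)| + |(p.2 : ℝ)|) ≤ 3 / 4 * nrm p := by
    have hn := nrm_sq p
    have hn0 : 0 ≤ nrm p := Real.sqrt_nonneg _
    rw [← sq_abs (p.1 : ℝ), ← sq_abs (p.2 : ℝ)] at hn
    have ha := abs_nonneg (p.1 : ℝ)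
    have hb := abs_nonneg (p.2 : ℝ)
    refine (sq_le_sq₀ (by positivity) (by positivity)).1 ?_
    nlinarith [sq_nonneg (|(p.1 : ℝ)| - |(p.2 : ℝ)|)]
  constructor
  · have e : ((p.1 : ℝ) * y 1 - p.2 * y 0) - (fdet p x : ℝ) =
        (p.1 : ℝ) * (y 1 - x.2) - p.2 * (y 0 - x.1) := by
      unfold fdet
      push_cast
      ring
    rw [e]
    refine (abs_sub _ _).trans ?_
    rw [abs_mul, abs_mul]
    nlinarith [mul_le_mul_of_nonneg_left h1 (abs_nonneg (p.1 : ℝ)),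
      mul_le_mul_of_nonneg_left h0 (abs_nonneg (p.2 : ℝ))]
  · have e : ((p.1 : ℝ) * y 0 + p.2 * y 1) - (gdot p x : ℝ) =
        (p.1 : ℝ) * (y 0 - x.1) + p.2 * (y 1 - x.2) := by
      unfold gdot
      push_cast
      ring
    rw [e]
    refine (abs_add_le _ _).trans ?_
    rw [abs_mul, abs_mul]
    nlinarith [mul_le_mul_of_nonneg_left h0 (abs_nonneg (p.1 : ℝ)),
      mul_le_mul_of_nonneg_left h1 (abs_nonneg (p.2 : ℝ))]

theorem mem_rect {p : Site} (hp : p ≠ 0) {K w : ℝ} (hK : 1 ≤ K) (hw : 0 ≤ w) (x : Site) :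
    x ∈ rect p K w ↔
      |(fdet p x : ℝ)| ≤ w * nrm p ∧ |(gdot p x : ℝ)| ≤ K * w * nrm p := by
  unfold rect
  rw [Finset.mem_filter]
  refine ⟨fun h => h.2, fun h => ⟨?_, h⟩⟩
  have hn := nrm_pos hp
  have hid : ((x.1 : ℝ) ^ 2 + (x.2 : ℝ) ^ 2) * nrm p ^ 2 =
      (fdet p x : ℝ) ^ 2 + (gdot p x : ℝ) ^ 2 := by
    rw [nrm_sq]
    unfold fdet gdot
    push_cast
    ring
  have h1 : (fdet p x : ℝ) ^ 2 ≤ (w * nrm p) ^ 2 := by
    rw [← sq_abs]
    exact pow_le_pow_left₀ (abs_nonneg _) h.1 2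
  have h2 : (gdot p x : ℝ) ^ 2 ≤ (K * w * nrm p) ^ 2 := by
    rw [← sq_abs]
    exact pow_le_pow_left₀ (abs_nonneg _) h.2 2
  have h3 : (x.1 : ℝ) ^ 2 + (x.2 : ℝ) ^ 2 ≤ ((1 + K) * w) ^ 2 := by
    have h4 : ((x.1 : ℝ) ^ 2 + (x.2 : ℝ) ^ 2) * nrm p ^ 2 ≤ ((1 + K) * w) ^ 2 * nrm p ^ 2 := by
      rw [hid]
      have h5 : 0 ≤ K * w ^ 2 * nrm p ^ 2 := by positivity
      nlinarith
    exact le_of_mul_le_mul_right h4 (pow_pos hn 2)
  have h0 : 0 ≤ (1 + K) * w := by positivity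
  have hc : (1 + K) * w ≤ (⌈(1 + K) * w⌉₊ : ℝ) := Nat.le_ceil _
  have a1 : |(x.1 : ℝ)| ≤ (⌈(1 + K) * w⌉₊ : ℝ) := by
    refine (abs_le_of_sq_le_sq ?_ h0).trans hc
    nlinarith [sq_nonneg (x.2 : ℝ)]
  have a2 : |(x.2 : ℝ)| ≤ (⌈(1 + K) * w⌉₊ : ℝ) := by
    refine (abs_le_of_sq_le_sq ?_ h0).trans hc
    nlinarith [sq_nonneg (x.1 : ℝ)]
  have b1 := abs_le.1 a1
  have b2 := abs_le.1 a2
  unfold box
  rw [Finset.mem_product, Finset.mem_Icc, Finset.mem_Icc]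
  exact ⟨⟨by exact_mod_cast b1.1, by exact_mod_cast b1.2⟩,
    ⟨by exact_mod_cast b2.1, by exact_mod_cast b2.2⟩⟩

theorem lower {p : Site} (hp : p ≠ 0) {K w : ℝ} (hK : 1 ≤ K) (hw : 4 ≤ w) :
    4 * (w - 3 / 4) * (K * w - 3 / 4) ≤ ((rect p K w).card : ℝ) := by
  have hsub : RR p (w - 3 / 4) (K * w - 3 / 4) ⊆ ⋃ x ∈ rect p K w, sqc x := by
    intro y hy
    rw [mem_RR] at hy
    have r0 := abs_sub_round (y 0)
    have r1 := abs_sub_round (y 1)
    have hx : ((round (y 0), round (y 1)) : Site) ∈ rect p K w := by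
      rw [mem_rect hp hK (by linarith)]
      have hc := change (p := p) (x := (round (y 0), round (y 1))) r0 r1
      constructor
      · have h1 := abs_sub_abs_le_abs_sub (fdet p (round (y 0), round (y 1)) : ℝ)
          ((p.1 : ℝ) * y 1 - p.2 * y 0)
        have h2 := abs_sub_comm (fdet p (round (y 0), round (y 1)) : ℝ)
          ((p.1 : ℝ) * y 1 - p.2 * y 0)
        linarith [hc.1, hy.1]
      · have h1 := abs_sub_abs_le_abs_sub (gdot p (round (y 0), round (y 1)) : ℝ)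
          ((p.1 : ℝ) * y 0 + p.2 * y 1)
        have h2 := abs_sub_comm (gdot p (round (y 0), round (y 1)) : ℝ)
          ((p.1 : ℝ) * y 0 + p.2 * y 1)
        linarith [hc.2, hy.2]
    refine Set.mem_biUnion hx ?_
    unfold sqc
    rw [Set.mem_Icc, Pi.le_def, Pi.le_def, Fin.forall_fin_two, Fin.forall_fin_two]
    simp only [Matrix.cons_val_zero, Matrix.cons_val_one]
    have c0 := abs_le.1 r0
    have c1 := abs_le.1 r1
    refine ⟨⟨by linarith, by linarith⟩, ⟨by linarith, by linarith⟩⟩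
  have h1 : volume (RR p (w - 3 / 4) (K * w - 3 / 4)) ≤ ((rect p K w).card : ENNReal) := by
    refine (measure_mono hsub).trans ((measure_biUnion_finset_le _ _).trans (le_of_eq ?_))
    rw [Finset.sum_congr rfl fun x _ => vol_sqc x, Finset.sum_const, nsmul_eq_mul, mul_one]
  rw [vol_RR hp (by linarith)] at h1
  rw [← ENNReal.ofReal_natCast] at h1
  exact (ENNReal.ofReal_le_ofReal_iff (Nat.cast_nonneg _)).1 h1

theorem upper {p : Site} (hp : p ≠ 0) {K w : ℝ} (hK : 1 ≤ K) (hw : 4 ≤ w) :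
    ((rect p K w).card : ℝ) ≤ 4 * (w + 3 / 4) * (K * w + 3 / 4) := by
  have hco : ∀ (x : Site) (y : Fin 2 → ℝ), y ∈ sqo x →
      (x.1 - 1 / 2 ≤ y 0 ∧ y 0 < x.1 + 1 / 2) ∧ (x.2 - 1 / 2 ≤ y 1 ∧ y 1 < x.2 + 1 / 2) := by
    intro x y hy
    unfold sqo at hy
    rw [Set.mem_univ_pi] at hy
    have h0 := hy 0
    have h1 := hy 1
    simp only [Matrix.cons_val_zero, Matrix.cons_val_one, Set.mem_Ico] at h0 h1
    exact ⟨h0, h1⟩
  have hsub : (⋃ x ∈ rect p K w, sqo x) ⊆ RR p (w + 3 / 4) (K * w + 3 / 4) := by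
    intro y hy
    obtain ⟨x, hx, hy⟩ := Set.mem_iUnion₂.1 hy
    rw [mem_rect hp hK (by linarith)] at hx
    have h := hco x y hy
    have hc := change (p := p) (x := x) (y := y)
      (abs_le.2 ⟨by linarith [h.1.1], by linarith [h.1.2]⟩)
      (abs_le.2 ⟨by linarith [h.2.1], by linarith [h.2.2]⟩)
    rw [mem_RR]
    constructor
    · have h1 := abs_sub_abs_le_abs_sub ((p.1 : ℝ) * y 1 - p.2 * y 0) (fdet p x : ℝ)
      nlinarith [hc.1, hx.1]
    · have h1 := abs_sub_abs_le_abs_sub ((p.1 : ℝ) * y 0 + p.2 * y 1) (gdot p x : ℝ)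
      nlinarith [hc.2, hx.2]
  have hdisj : (↑(rect p K w) : Set Site).PairwiseDisjoint sqo := by
    intro x _ x' _ hne
    refine Set.disjoint_left.2 fun y hy hy' => hne ?_
    have h := hco x y hy
    have h' := hco x' y hy'
    have e1 : (x.1 : ℝ) < x'.1 + 1 := by linarith [h.1.1, h'.1.2]
    have e2 : (x'.1 : ℝ) < x.1 + 1 := by linarith [h'.1.1, h.1.2]
    have e3 : (x.2 : ℝ) < x'.2 + 1 := by linarith [h.2.1, h'.2.2]
    have e4 : (x'.2 : ℝ) < x.2 + 1 := by linarith [h'.2.1, h.2.2]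
    have f1 : x.1 < x'.1 + 1 := by exact_mod_cast e1
    have f2 : x'.1 < x.1 + 1 := by exact_mod_cast e2
    have f3 : x.2 < x'.2 + 1 := by exact_mod_cast e3
    have f4 : x'.2 < x.2 + 1 := by exact_mod_cast e4
    exact Prod.ext (by omega) (by omega)
  have hmeas : ∀ x ∈ rect p K w, MeasurableSet (sqo x) := fun x _ =>
    MeasurableSet.univ_pi fun i => measurableSet_Ico
  have h1 : ((rect p K w).card : ENNReal) ≤ volume (RR p (w + 3 / 4) (K * w + 3 / 4)) := by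
    refine le_trans (le_of_eq ?_) (measure_mono hsub)
    rw [measure_biUnion_finset hdisj hmeas, Finset.sum_congr rfl fun x _ => vol_sqo x,
      Finset.sum_const, nsmul_eq_mul, mul_one]
  rw [vol_RR hp (by linarith), ← ENNReal.ofReal_natCast] at h1
  refine (ENNReal.ofReal_le_ofReal_iff ?_).1 h1
  have hw0 : 0 < w := by linarith
  have hK0 : 0 < K := by linarith
  positivity

theorem pf_AREA : P_AREA := by
  intro p K w hp hK hw
  have h1 := lower hp hK hw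
  have h2 := upper hp hK hw
  have hKw : w ≤ K * w := by nlinarith
  have h0 : 0 < K * w ^ 2 := by positivity
  constructor
  · refine le_trans ?_ h1
    have a1 : 13 / 16 * w ≤ w - 3 / 4 := by linarith
    have a2 : 13 / 16 * (K * w) ≤ K * w - 3 / 4 := by linarith
    have a3 : 13 / 16 * w * (13 / 16 * (K * w)) ≤ (w - 3 / 4) * (K * w - 3 / 4) :=
      mul_le_mul a1 a2 (by nlinarith) (by linarith)
    nlinarith
  · refine h2.trans ?_
    have a1 : w + 3 / 4 ≤ 2 * w := by linarith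
    have a2 : K * w + 3 / 4 ≤ 2 * (K * w) := by linarith
    have a3 : (w + 3 / 4) * (K * w + 3 / 4) ≤ 2 * w * (2 * (K * w)) :=
      mul_le_mul a1 a2 (by nlinarith) (by linarith)
    nlinarith

end Pool.Agent.H94.RFZ
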